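import Pool.Agent.H28.TanNormal

set_option autoImplicit false

namespace Pool.Agent.Results.MP_4e9c6d_co.ModNormal

open Pool.Agent.H28.TanBlock

/-- Every tangential `k`-block over a finite field that has a modular hyperplane is normal. -/
theorem result (F : Type) [Field F] [Fintype F] (k : ℕ) (α : Type) [Fintype α] (n : ℕ)
    (v : α → Fin n → F) (hs : Simple v) (hc : ¬ CritLe v ∅ ∅ k)
    (hflat : ∀ X : Set α, IsFlat v X → X.Nonempty → CritLe v X ∅ k)
    (hM : HasModularHyperplane v) : Normal v (Fintype.card F ^ k + 1) := by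
  refine normal_of_mod v k hs hc ?_ hM
  rintro D ⟨d, hd⟩
  have hf : IsFlat v {d} := by
    intro e he
    rw [Set.image_singleton] at he
    obtain ⟨c, hc⟩ := Submodule.mem_span_singleton.1 he
    by_contra hne
    have := LinearIndependent.pair_iff.1 (hs.2 e d hne) 1 (-c) (by rw [← hc]; simp)
    exact one_ne_zero this.1
  obtain ⟨φ, -, hφ⟩ := hflat {d} hf (Set.singleton_nonempty d)
  refine ⟨φ, fun _ _ h => absurd h (Set.notMem_empty _), fun e _ he => ?_⟩
  exact hφ e (fun h => he ((Set.mem_singleton_iff.1 h) ▸ hd)) (Set.notMem_empty _)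

end Pool.Agent.Results.MP_4e9c6d_co.ModNormal
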